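import Pool.Agent.helper22.RG9.Spec2

/-!
# Root graded groups (MP_a2a22c_al), part 2, row CN2: conjugation of the Lie algebra of logarithms
-/

set_option autoImplicit false

namespace Pool.Agent.RG9

open Matrix Pool.Agent.H48SL Pool.Agent.UG

theorem CN2 (hLGF : LGF_stmt) : CN2_stmt := by
  intro n m E X Y g hXY Z hZ
  obtain ⟨-, -, -, -, h5, -⟩ := hLGF n
  have hinv : qg g⁻¹ * qg g = 1 := by rw [← qg_mul, inv_mul_cancel, qg_one]
  obtain ⟨c, hc⟩ : ∃ c : MQ n →ₗ[ℚ] MQ n, ∀ Z, c Z = qg g * Z * qg g⁻¹ :=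
    ⟨(LinearMap.mulRight ℚ (qg g⁻¹)).comp (LinearMap.mulLeft ℚ (qg g)), fun Z => rfl⟩
  have hmul : ∀ A B, c A * c B = c (A * B) := by
    intro A B
    rw [hc, hc, hc]
    calc qg g * A * qg g⁻¹ * (qg g * B * qg g⁻¹) = qg g * A * (qg g⁻¹ * qg g) * B * qg g⁻¹ := by simp only [mul_assoc]
      _ = qg g * (A * B) * qg g⁻¹ := by
        rw [hinv, mul_one]
        simp only [mul_assoc]
  have h1 : ∀ i j, i ≠ j → ∀ Z ∈ LE E (X i j), c Z ∈ LE E (Y i j) := by
    intro i j hij Z hZ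
    have h2 : Submodule.map c (LE E (X i j)) ≤ LE E (Y i j) := by
      unfold LE
      rw [Submodule.map_span_le]
      rintro _ ⟨x, hx, rfl⟩
      obtain ⟨hu, hy⟩ := hXY i j hij x hx
      refine Submodule.subset_span ⟨g * x * g⁻¹, hy, ?_⟩
      rw [hc, ← (h5 (x ^ E) g hu).2, conj_pow]
    exact h2 (Submodule.mem_map_of_mem hZ)
  have h2 : Submodule.map c (SS fun i j => LE E (X i j)) ≤ SS fun i j => LE E (Y i j) := by
    unfold SS
    rw [Submodule.map_span_le]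
    rintro Z (⟨i, j, hij, hZ⟩ | ⟨i, j, hij, A, hA, B, hB, rfl⟩)
    · exact Submodule.subset_span (Or.inl ⟨i, j, hij, h1 i j hij Z hZ⟩)
    · refine Submodule.subset_span (Or.inr ⟨i, j, hij, c A, h1 i j hij A hA, c B, h1 j i hij.symm B hB, ?_⟩)
      rw [map_sub, hmul, hmul]
  rw [← hc]
  exact h2 (Submodule.mem_map_of_mem hZ)

end Pool.Agent.RG9
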